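import Pool.Agent.Lib.GBC.QDef

/-!
Module Q.Base of GBC. The subspaces `M y = t ^ y B` of `K` and `L y = A ∩ t ^ y B`.

PROOFS. All from the definition `x ∈ M y ↔ t ^ (-y) x ∈ B`, `t⁻¹ ∈ B`, `t ≠ 0` (`zpow_add₀`).
`M_mono`: `t ^ (-y') x = t ^ (-(y' - y)) (t ^ (-y) x)`, `t ^ (-n) = (t⁻¹) ^ n ∈ B` for `n ≥ 0`.
`exists_mem_M`: `G.exh`. `M_rel`: multiplication by `t ^ (-(y + 1))` is an isomorphism of `K` which
maps `M (y + 1)` to `B` and `M y` to `t⁻¹ B`, so `M (y + 1) / M y ≃ B / (t⁻¹)`, of dimension `d`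
(`G.fin_quot`, `G.dim_quot`); for `y ≤ y'` induction on `y' - y`, with
`dim P''/P = dim P''/P' + dim P'/P`. `L_neg`: `x ∈ A`, `x ∈ M y ≤ M (-1)`, i.e. `t x ∈ B`:
`G.inter`. `nontriv`: if `t⁻¹ ∈ A` then `G.inter t⁻¹` gives `t⁻¹ = 0`. `smul_M`: `a * x` with
`a ∈ B = M 0`.
-/

set_option autoImplicit false

namespace Pool.Agent.GBC.Geo

open Pool.Agent.BSDP Pool.Agent.BSDFF Pool.Agent.HYP

variable {k K : Type} [Field k] [Field K] [Algebra k K] (G : Geo k K)

theorem mem_M (y : ℤ) (x : K) : x ∈ G.M y ↔ G.t ^ (-y) * x ∈ G.B := Iff.rfl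

theorem mem_M_zero (x : K) : x ∈ G.M 0 ↔ x ∈ G.B := by
  rw [mem_M, neg_zero, zpow_zero, one_mul]

private theorem qbase_neg_mem (n : ℕ) : G.t ^ (-(n : ℤ)) ∈ G.B := by
  rw [zpow_neg, zpow_natCast, ← inv_pow]
  exact pow_mem G.inv_mem n

theorem M_mono {y y' : ℤ} (h : y ≤ y') : G.M y ≤ G.M y' := by
  intro x hx
  rw [mem_M] at hx ⊢
  obtain ⟨n, hn⟩ := Int.le.dest h
  have e : G.t ^ (-y') * x = G.t ^ (-(n : ℤ)) * (G.t ^ (-y) * x) := by
    rw [← mul_assoc, ← zpow_add₀ G.t_ne, ← hn]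
    congr 2
    ring
  rw [e]
  exact mul_mem (qbase_neg_mem G n) hx

theorem mul_mem_M {y y' : ℤ} {x x' : K} (h : x ∈ G.M y) (h' : x' ∈ G.M y') :
    x * x' ∈ G.M (y + y') := by
  rw [mem_M] at h h' ⊢
  have e : G.t ^ (-(y + y')) * (x * x') = (G.t ^ (-y) * x) * (G.t ^ (-y') * x') := by
    rw [neg_add, zpow_add₀ G.t_ne]
    ring
  rw [e]
  exact mul_mem h h'

theorem zpow_mem_M (y : ℤ) : G.t ^ y ∈ G.M y := by
  rw [mem_M, ← zpow_add₀ G.t_ne, neg_add_cancel, zpow_zero]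
  exact one_mem _

theorem zpow_mul_mem_M {y z : ℤ} {x : K} : G.t ^ z * x ∈ G.M (y + z) ↔ x ∈ G.M y := by
  rw [mem_M, mem_M]
  have e : G.t ^ (-(y + z)) * (G.t ^ z * x) = G.t ^ (-y) * x := by
    rw [← mul_assoc, ← zpow_add₀ G.t_ne]
    congr 2
    ring
  rw [e]

theorem pow_mem_M {y : ℤ} {x : K} (h : x ∈ G.M y) (n : ℕ) : x ^ n ∈ G.M (n * y) := by
  induction n with
  | zero =>
    rw [pow_zero, Nat.cast_zero, zero_mul, mem_M_zero]
    exact one_mem _
  | succ n ih =>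
    rw [pow_succ]
    have e : ((n + 1 : ℕ) : ℤ) * y = n * y + y := by
      push_cast
      ring
    rw [e]
    exact mul_mem_M G ih h

theorem exists_mem_M (x : K) : ∃ n : ℕ, x ∈ G.M n := by
  obtain ⟨n, hn⟩ := G.exh x
  refine ⟨n, ?_⟩
  rw [mem_M, zpow_neg, zpow_natCast, ← inv_pow]
  exact hn

theorem one_mem_M {y : ℤ} (hy : 0 ≤ y) : (1 : K) ∈ G.M y := by
  apply M_mono G hy
  rw [mem_M_zero]
  exact one_mem _

theorem L_neg {y : ℤ} (hy : y < 0) {x : K} (h : x ∈ G.A) (h' : x ∈ G.M y) : x = 0 := by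
  have h1 : x ∈ G.M (-1) := M_mono G (by omega) h'
  rw [mem_M, neg_neg, zpow_one] at h1
  exact G.inter x h h1

theorem inv_not_mem : G.t⁻¹ ∉ G.A := by
  intro h
  have h1 : G.t * G.t⁻¹ ∈ G.B := by
    rw [mul_inv_cancel₀ G.t_ne]
    exact one_mem _
  exact inv_ne_zero G.t_ne (G.inter _ h h1)

private theorem qbase_mem_sub {P P' : Submodule k K} (x : P') :
    x ∈ P.submoduleOf P' ↔ (x : K) ∈ P := Iff.rfl

private theorem qbase_step {P P' P'' : Submodule k K} (h1 : P ≤ P') (h2 : P' ≤ P'')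
    (f1 : Module.Finite k (P' ⧸ P.submoduleOf P'))
    (f2 : Module.Finite k (P'' ⧸ P'.submoduleOf P'')) :
    Module.Finite k (P'' ⧸ P.submoduleOf P'') ∧
      Module.finrank k (P'' ⧸ P.submoduleOf P'') =
        Module.finrank k (P'' ⧸ P'.submoduleOf P'') + Module.finrank k (P' ⧸ P.submoduleOf P') := by
  let f : P' →ₗ[k] (P'' ⧸ P.submoduleOf P'') :=
    (P.submoduleOf P'').mkQ ∘ₗ Submodule.inclusion h2
  have hf : LinearMap.ker f = P.submoduleOf P' := by
    ext x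
    rw [LinearMap.mem_ker]
    change (P.submoduleOf P'').mkQ (Submodule.inclusion h2 x) = 0 ↔ _
    rw [Submodule.mkQ_apply, Submodule.Quotient.mk_eq_zero, qbase_mem_sub,
      qbase_mem_sub]
    rfl
  have hle : P.submoduleOf P'' ≤ P'.submoduleOf P'' := fun x hx => h1 hx
  let g : (P'' ⧸ P.submoduleOf P'') →ₗ[k] (P'' ⧸ P'.submoduleOf P'') := Submodule.factor hle
  have hgs : Function.Surjective g := Submodule.factor_surjective hle
  have hg : LinearMap.ker g = LinearMap.range f := by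
    ext z
    obtain ⟨x, rfl⟩ := Submodule.Quotient.mk_surjective _ z
    rw [LinearMap.mem_ker, LinearMap.mem_range]
    change (Submodule.Quotient.mk x : P'' ⧸ P'.submoduleOf P'') = 0 ↔ _
    rw [Submodule.Quotient.mk_eq_zero, qbase_mem_sub]
    constructor
    · intro hx
      exact ⟨⟨x, hx⟩, rfl⟩
    · rintro ⟨w, hw⟩
      have h3 : (Submodule.Quotient.mk (Submodule.inclusion h2 w) :
          P'' ⧸ P.submoduleOf P'') = Submodule.Quotient.mk x := hw
      rw [Submodule.Quotient.eq, qbase_mem_sub] at h3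
      have h4 : (w : K) - (x : K) ∈ P' := h1 h3
      have h5 := P'.sub_mem w.2 h4
      simpa using h5
  have e1 : (P' ⧸ P.submoduleOf P') ≃ₗ[k] LinearMap.ker g :=
    (Submodule.quotEquivOfEq _ _ hf.symm).trans
      (f.quotKerEquivRange.trans (LinearEquiv.ofEq _ _ hg.symm))
  have e2 : ((P'' ⧸ P.submoduleOf P'') ⧸ LinearMap.ker g) ≃ₗ[k] (P'' ⧸ P'.submoduleOf P'') :=
    g.quotKerEquivOfSurjective hgs
  haveI i1 : Module.Finite k (LinearMap.ker g) := Module.Finite.equiv e1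
  haveI i2 : Module.Finite k ((P'' ⧸ P.submoduleOf P'') ⧸ LinearMap.ker g) :=
    Module.Finite.equiv e2.symm
  have fin : Module.Finite k (P'' ⧸ P.submoduleOf P'') :=
    Module.Finite.of_submodule_quotient (LinearMap.ker g)
  refine ⟨fin, ?_⟩
  rw [← e2.finrank_eq, e1.finrank_eq]
  exact (Submodule.finrank_quotient_add_finrank (LinearMap.ker g)).symm

private theorem qbase_one (y : ℤ) :
    Module.Finite k (G.M (y + 1) ⧸ (G.M y).submoduleOf (G.M (y + 1))) ∧
      Module.finrank k (G.M (y + 1) ⧸ (G.M y).submoduleOf (G.M (y + 1))) = G.d := by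
  let I : Ideal G.B := Ideal.span {(⟨G.t⁻¹, G.inv_mem⟩ : G.B)}
  let m : G.M (y + 1) →ₗ[k] G.B :=
    { toFun := fun x => ⟨G.t ^ (-(y + 1)) * x, x.2⟩
      map_add' := fun a b => by
        apply Subtype.ext
        change G.t ^ (-(y + 1)) * ((a : K) + b) = G.t ^ (-(y + 1)) * a + G.t ^ (-(y + 1)) * b
        rw [mul_add]
      map_smul' := fun c a => by
        apply Subtype.ext
        change G.t ^ (-(y + 1)) * (c • (a : K)) = c • (G.t ^ (-(y + 1)) * (a : K))
        rw [mul_smul_comm] }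
  have hm : ∀ x : G.M (y + 1), ((m x : G.B) : K) = G.t ^ (-(y + 1)) * x := fun x => rfl
  let f : G.M (y + 1) →ₗ[k] (G.B ⧸ I) := (Ideal.Quotient.mkₐ k I).toLinearMap ∘ₗ m
  have hf : ∀ x, f x = Ideal.Quotient.mk I (m x) := fun x => rfl
  have hfs : Function.Surjective f := by
    intro z
    obtain ⟨b, rfl⟩ := Ideal.Quotient.mk_surjective z
    refine ⟨⟨G.t ^ (y + 1) * (b : K), ?_⟩, ?_⟩
    · rw [mem_M, ← mul_assoc, ← zpow_add₀ G.t_ne, neg_add_cancel, zpow_zero, one_mul]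
      exact b.2
    · rw [hf]
      congr 1
      apply Subtype.ext
      rw [hm]
      change G.t ^ (-(y + 1)) * (G.t ^ (y + 1) * (b : K)) = b
      rw [← mul_assoc, ← zpow_add₀ G.t_ne, neg_add_cancel, zpow_zero, one_mul]
  have hk : LinearMap.ker f = (G.M y).submoduleOf (G.M (y + 1)) := by
    ext x
    rw [LinearMap.mem_ker, hf, Ideal.Quotient.eq_zero_iff_mem, Ideal.mem_span_singleton',
      qbase_mem_sub, mem_M]
    constructor
    · rintro ⟨a, ha⟩
      have h1 : (a : K) * G.t⁻¹ = G.t ^ (-(y + 1)) * x := by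
        rw [← hm, ← ha]
        rfl
      have h2 : G.t ^ (-y) * (x : K) = a := by
        have h3 : G.t ^ (-y) = G.t * G.t ^ (-(y + 1)) := by
          rw [← zpow_one_add₀ G.t_ne]
          congr 1
          ring
        rw [h3, mul_assoc, ← h1, mul_comm, mul_assoc, inv_mul_cancel₀ G.t_ne, mul_one]
      rw [h2]
      exact a.2
    · intro hx
      refine ⟨⟨_, hx⟩, ?_⟩
      apply Subtype.ext
      rw [hm]
      change G.t ^ (-y) * (x : K) * G.t⁻¹ = _
      have h3 : G.t ^ (-(y + 1)) = G.t ^ (-y) * G.t⁻¹ := by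
        rw [← zpow_sub_one₀ G.t_ne]
        congr 1
        ring
      rw [h3]
      ring
  have e : (G.M (y + 1) ⧸ (G.M y).submoduleOf (G.M (y + 1))) ≃ₗ[k] (G.B ⧸ I) :=
    (Submodule.quotEquivOfEq _ _ hk.symm).trans (f.quotKerEquivOfSurjective hfs)
  haveI : Module.Finite k (G.B ⧸ I) := G.fin_quot
  exact ⟨Module.Finite.equiv e.symm, e.finrank_eq.trans G.dim_quot⟩

private theorem qbase_all (y : ℤ) (n : ℕ) :
    Module.Finite k (G.M (y + n) ⧸ (G.M y).submoduleOf (G.M (y + n))) ∧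
      Module.finrank k (G.M (y + n) ⧸ (G.M y).submoduleOf (G.M (y + n))) = G.d * n := by
  induction n with
  | zero =>
    rw [Nat.cast_zero, add_zero, mul_zero]
    have h1 : (G.M y).submoduleOf (G.M y) = ⊤ := by
      rw [Submodule.submoduleOf_eq_top]
    haveI : Subsingleton (G.M y ⧸ (G.M y).submoduleOf (G.M y)) := by
      rw [h1]
      infer_instance
    exact ⟨inferInstance, Module.finrank_zero_of_subsingleton⟩
  | succ n ih =>
    have h1 : y + ((n + 1 : ℕ) : ℤ) = y + n + 1 := by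
      push_cast
      ring
    rw [h1]
    have h2 := qbase_one G (y + n)
    have h3 := qbase_step (M_mono G (by omega : y ≤ y + n)) (M_mono G (by omega : y + n ≤ y + n + 1))
      ih.1 h2.1
    refine ⟨h3.1, ?_⟩
    rw [h3.2, ih.2, h2.2]
    ring

theorem fin_M {y y' : ℤ} (h : y ≤ y') :
    Module.Finite k (G.M y' ⧸ (G.M y).submoduleOf (G.M y')) := by
  obtain ⟨n, rfl⟩ := Int.le.dest h
  exact (qbase_all G y n).1

theorem finrank_M {y y' : ℤ} (h : y ≤ y') :
    (Module.finrank k (G.M y' ⧸ (G.M y).submoduleOf (G.M y')) : ℤ) = G.d * (y' - y) := by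
  obtain ⟨n, rfl⟩ := Int.le.dest h
  rw [(qbase_all G y n).2]
  push_cast
  ring

end Pool.Agent.GBC.Geo
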