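import Pool.Agent.Lib.GBC.Q.Ideal

/-!
Module Q.Coset of GBC. The number of `a ∈ A` in a residue class modulo `I` which are close to `x ∈ K`
at infinity.

PROOF. Two elements of `Cos I a₀ x y` differ by an element of `IL I y`; so if it is not empty it is a
translate of `IL I y`, with `#k ^ dim` elements (`Module.card_eq_pow_finrank`, `Nat.card`).
`exists_coset`: let `P` be the subspace `I` of `K`; `A / I` is finite dimensional, so
`ChiFin P (M 0)` (`chi_left` for `P ≤ A`, `chiFin`), so `K / (P ⊔ M 0)` is finite dimensional; the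
subspaces `P ⊔ M y`, `y = 0, 1, …` increase and their union is `K` (`exists_mem_M`), so
`P ⊔ M y = ⊤` for `y ≥ y₀` (Noetherian: a basis of the quotient has finitely many elements, each of
them is in some `M y`). Write `a₀ - x = i + μ`, `i ∈ I`, `μ ∈ M y`, `a = a₀ - i`.
-/

set_option autoImplicit false

namespace Pool.Agent.GBC.Geo

open Pool.Agent.BSDP Pool.Agent.BSDFF Pool.Agent.HYP

variable {k K : Type} [Field k] [Field K] [Algebra k K] (G : Geo k K)

/-- the elements of `a₀ + I` in `x + t ^ y B` -/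
def Cos (I : Ideal G.A) (a₀ : G.A) (x : K) (y : ℤ) : Set G.A :=
  {a | a - a₀ ∈ I ∧ (a : K) - x ∈ G.M y}

/-- translation by an element of the coset -/
private def Coset_equiv (I : Ideal G.A) (a₀ : G.A) (x : K) (y : ℤ) (a₁ : G.A)
    (h : a₁ ∈ G.Cos I a₀ x y) : G.Cos I a₀ x y ≃ G.IL I y where
  toFun a := ⟨a.1 - a₁, by
    refine ⟨?_, ?_⟩
    · have := I.sub_mem a.2.1 h.1
      rwa [sub_sub_sub_cancel_right] at this
    · have := (G.M y).sub_mem a.2.2 h.2
      rwa [sub_sub_sub_cancel_right] at this⟩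
  invFun b := ⟨b.1 + a₁, by
    refine ⟨?_, ?_⟩
    · have := I.add_mem b.2.1 h.1
      rwa [← add_sub_assoc] at this
    · have := (G.M y).add_mem b.2.2 h.2
      rwa [← add_sub_assoc] at this⟩
  left_inv a := by
    apply Subtype.ext
    change a.1 - a₁ + a₁ = a.1
    exact sub_add_cancel _ _
  right_inv b := by
    apply Subtype.ext
    change b.1 + a₁ - a₁ = b.1
    exact add_sub_cancel_right _ _

theorem finite_cos [Finite k] (I : Ideal G.A) (a₀ : G.A) (x : K) (y : ℤ) :
    (G.Cos I a₀ x y).Finite := by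
  rcases Set.eq_empty_or_nonempty (G.Cos I a₀ x y) with h | ⟨a₁, h⟩
  · rw [h]
    exact Set.finite_empty
  · have h1 : Module.Finite k (G.IL I y) := G.fin_IL I y
    have h2 : Finite (G.IL I y) := Module.finite_of_finite k
    have h3 : Finite (G.Cos I a₀ x y) := (G.Coset_equiv I a₀ x y a₁ h).finite_iff.2 h2
    exact Set.toFinite _

theorem card_cos_eq [Finite k] (I : Ideal G.A) (a₀ : G.A) (x : K) (y : ℤ)
    (h : (G.Cos I a₀ x y).Nonempty) :
    Nat.card (G.Cos I a₀ x y) = Nat.card k ^ Module.finrank k (G.IL I y) := by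
  obtain ⟨a₁, h⟩ := h
  have h1 : Module.Finite k (G.IL I y) := G.fin_IL I y
  rw [Nat.card_congr (G.Coset_equiv I a₀ x y a₁ h), Module.natCard_eq_pow_finrank (K := k)]

theorem card_cos_le [Finite k] (I : Ideal G.A) (a₀ : G.A) (x : K) (y : ℤ) :
    Nat.card (G.Cos I a₀ x y) ≤ Nat.card k ^ Module.finrank k (G.IL I y) := by
  rcases Set.eq_empty_or_nonempty (G.Cos I a₀ x y) with h | h
  · rw [h]
    simp
  · exact (G.card_cos_eq I a₀ x y h).le

private theorem Coset_top (P : Submodule k K) (h : Module.Finite k (K ⧸ (P ⊔ G.M 0))) :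
    ∃ y₀ : ℕ, ∀ y : ℤ, y₀ ≤ y → P ⊔ G.M y = ⊤ := by
  obtain ⟨S, hS⟩ := h.fg_top
  choose n hn using G.exists_mem_M
  have hs := Submodule.mkQ_surjective (P ⊔ G.M 0)
  refine ⟨S.sup (fun u => n (Function.surjInv hs u)), fun y hy => ?_⟩
  have hy0 : 0 ≤ y := le_trans (Int.natCast_nonneg _) hy
  rw [eq_top_iff]
  intro x _
  have hle : Submodule.span k (S : Set (K ⧸ (P ⊔ G.M 0))) ≤
      (P ⊔ G.M y).map (P ⊔ G.M 0).mkQ := by
    rw [Submodule.span_le]
    intro u hu
    refine ⟨Function.surjInv hs u, ?_, Function.surjInv_eq hs u⟩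
    apply Submodule.mem_sup_right
    refine G.M_mono ?_ (hn (Function.surjInv hs u))
    refine le_trans ?_ hy
    exact_mod_cast Finset.le_sup (f := fun u => n (Function.surjInv hs u)) hu
  have hx : (P ⊔ G.M 0).mkQ x ∈ (P ⊔ G.M y).map (P ⊔ G.M 0).mkQ := by
    apply hle
    rw [hS]
    trivial
  obtain ⟨z, hz, hzx⟩ := hx
  have h1 : x - z ∈ P ⊔ G.M 0 := by
    rw [← (P ⊔ G.M 0).ker_mkQ, LinearMap.mem_ker, map_sub, hzx, sub_self]
  have h2 : x = x - z + z := by rw [sub_add_cancel]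
  rw [h2]
  exact Submodule.add_mem _ (sup_le_sup_left (G.M_mono hy0) P h1) hz

theorem exists_coset (I : Ideal G.A) (hI : I ≠ ⊥) :
    ∃ y₀ : ℕ, ∀ y : ℤ, y₀ ≤ y → ∀ (a₀ : G.A) (x : K), (G.Cos I a₀ x y).Nonempty := by
  set P : Submodule k K := (I.restrictScalars k).map G.A.val.toLinearMap with hP
  have hPA : P ≤ G.A.toSubmodule := by
    rintro _ ⟨a, _, rfl⟩
    exact a.2
  have hfin : Module.Finite k (Rel P G.A.toSubmodule) := by
    have h1 : Module.Finite k (G.A ⧸ I) := G.fin_quotI I hI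
    have h2 : Module.Finite k (G.A ⧸ I.restrictScalars k) :=
      Module.Finite.equiv (Submodule.Quotient.restrictScalarsEquiv k I).symm
    let f : G.A →ₗ[k] G.A.toSubmodule :=
      { toFun := fun a => ⟨a.1, a.2⟩
        map_add' := fun a b => rfl
        map_smul' := fun c a => rfl }
    have hf : I.restrictScalars k ≤ (P.submoduleOf G.A.toSubmodule).comap f := by
      intro a ha
      change (a : K) ∈ P
      exact ⟨a, ha, rfl⟩
    refine Module.Finite.of_surjective
      (Submodule.mapQ (I.restrictScalars k) (P.submoduleOf G.A.toSubmodule) f hf) ?_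
    intro u
    obtain ⟨v, rfl⟩ := Submodule.mkQ_surjective _ u
    exact ⟨(I.restrictScalars k).mkQ ⟨v.1, v.2⟩, rfl⟩
  have hchi : ChiFin P (G.M 0) := (chi_left hPA hfin).1.2 (G.chiFin 0)
  obtain ⟨y₀, hy₀⟩ := G.Coset_top P hchi.sup
  refine ⟨y₀, fun y hy a₀ x => ?_⟩
  have h1 : (a₀ : K) - x ∈ P ⊔ G.M y := by
    rw [hy₀ y hy]
    trivial
  obtain ⟨_, ⟨i, hi, rfl⟩, μ, hμ, h2⟩ := Submodule.mem_sup.1 h1
  refine ⟨a₀ - i, ?_, ?_⟩
  · rw [sub_sub_cancel_left]
    exact I.neg_mem hi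
  · have h3 : ((a₀ - i : G.A) : K) - x = μ := by
      have h4 : (i : K) + μ = a₀ - x := h2
      have h5 : ((a₀ - i : G.A) : K) = a₀ - i := rfl
      rw [h5]
      linear_combination -h4
    rw [h3]
    exact hμ

end Pool.Agent.GBC.Geo
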