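import Pool.Agent.Lib.GBC.Q.Deg

/-!
Module Q.Ideal of GBC. The dimension of `I ∩ t ^ y B` for an ideal `I ≠ 0` of `A`.

PROOF. `IL I y` embeds in `L y`: finite dimensional. Upper bound: if `IL I y = ⊥` then the dimension
is `0`. Otherwise there is a least `y₀` with `IL I y₀ ≠ ⊥` (`IL I z = ⊥` for `z < 0` by `L_neg`), and
`0 ≤ y₀ ≤ y`. Let `0 ≠ a ∈ IL I y₀`: `degI I ≤ degI (a) ≤ d y₀` (`degI_le`, `degI_span_le`). As in
`finrank_L_le`, `dim IL I (z + 1) / IL I z ≤ d`, so `dim IL I y ≤ d (y - y₀ + 1) ≤ d (y + 1) - degI I`.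
Lower bound: `IL I y` is the kernel of `L y → A / I`, so its dimension is at least
`dim L y - degI I` (`finrank_L_ge`).
-/

set_option autoImplicit false

namespace Pool.Agent.GBC.Geo

open Pool.Agent.BSDP Pool.Agent.BSDFF Pool.Agent.HYP

variable {k K : Type} [Field k] [Field K] [Algebra k K] (G : Geo k K)

private def ideal_toL (I : Ideal G.A) (y : ℤ) : G.IL I y →ₗ[k] G.L y where
  toFun x := ⟨((x : G.A) : K), (x : G.A).2, x.2.2⟩
  map_add' _ _ := rfl
  map_smul' _ _ := rfl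

private theorem ideal_toL_inj (I : Ideal G.A) (y : ℤ) : Function.Injective (ideal_toL G I y) := by
  intro a b h
  have h1 : (((a : G.A)) : K) = ((b : G.A) : K) := congrArg (fun z : G.L y => (z : K)) h
  exact Subtype.ext (Subtype.ext h1)

theorem fin_IL (I : Ideal G.A) (y : ℤ) : Module.Finite k (G.IL I y) := by
  have := G.fin_L y
  exact Module.Finite.of_injective (ideal_toL G I y) (ideal_toL_inj G I y)

theorem IL_neg (I : Ideal G.A) {y : ℤ} (hy : y < 0) : G.IL I y = ⊥ := by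
  rw [eq_bot_iff]
  intro a ha
  have h1 : (a : K) = 0 := G.L_neg hy a.2 ha.2
  have h2 : a = 0 := Subtype.ext h1
  rw [h2]
  exact Submodule.zero_mem _

theorem finrank_IL_le {I : Ideal G.A} (hI : I ≠ ⊥) (y : ℤ) :
    Module.finrank k (G.IL I y) = 0 ∨
      (Module.finrank k (G.IL I y) : ℤ) ≤ G.d * (y + 1) - G.degI I := by
  classical
  by_cases hb : G.IL I y = ⊥
  · left
    rw [hb]
    exact finrank_bot k G.A
  right
  have hy : 0 ≤ y := by
    by_contra h
    exact hb (G.IL_neg I (by omega))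
  have hex : ∃ n : ℕ, G.IL I (n : ℤ) ≠ ⊥ := ⟨y.toNat, by rwa [Int.toNat_of_nonneg hy]⟩
  set n : ℕ := Nat.find hex with hn
  have hne : G.IL I (n : ℤ) ≠ ⊥ := Nat.find_spec hex
  have hny : (n : ℤ) ≤ y := by
    have h1 : n ≤ y.toNat := Nat.find_min' hex (by rwa [Int.toNat_of_nonneg hy])
    omega
  have hpred : G.IL I ((n : ℤ) - 1) = ⊥ := by
    rcases Nat.eq_zero_or_pos n with h0 | h0
    · apply G.IL_neg
      omega
    · have h1 : ¬ G.IL I ((n - 1 : ℕ) : ℤ) ≠ ⊥ := Nat.find_min hex (by omega)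
      have h2 : ((n - 1 : ℕ) : ℤ) = (n : ℤ) - 1 := by omega
      rw [h2, not_not] at h1
      exact h1
  obtain ⟨a, ha, ha0⟩ := Submodule.exists_mem_ne_zero_of_ne_bot hne
  have hspan : Ideal.span {a} ≤ I := by
    rw [Ideal.span_singleton_le_iff_mem]
    exact ha.1
  have hsne : Ideal.span {a} ≠ ⊥ := by
    rw [Ne, Ideal.span_singleton_eq_bot]
    exact ha0
  have hdeg : (G.degI I : ℤ) ≤ G.d * n := by
    have h1 : G.degI I ≤ G.degI (Ideal.span {a}) := G.degI_le hsne hspan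
    have h2 := G.degI_span_le ha0 ha.2
    have h3 : (G.degI I : ℤ) ≤ G.degI (Ideal.span {a}) := by exact_mod_cast h1
    exact h3.trans h2
  have hle : (n : ℤ) - 1 ≤ y := by omega
  have hM := G.finrank_M hle
  have := G.fin_M hle
  let ι : G.IL I y →ₗ[k] G.M y :=
    { toFun := fun x => ⟨((x : G.A) : K), x.2.2⟩
      map_add' := fun _ _ => rfl
      map_smul' := fun _ _ => rfl }
  let φ : G.IL I y →ₗ[k] (G.M y ⧸ (G.M ((n : ℤ) - 1)).submoduleOf (G.M y)) :=
    ((G.M ((n : ℤ) - 1)).submoduleOf (G.M y)).mkQ ∘ₗ ι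
  have hφ : Function.Injective φ := by
    rw [injective_iff_map_eq_zero]
    intro x hx
    have h3 : ι x ∈ (G.M ((n : ℤ) - 1)).submoduleOf (G.M y) := by
      rw [← Submodule.Quotient.mk_eq_zero]
      exact hx
    have h4 : ((x : G.A) : K) ∈ G.M ((n : ℤ) - 1) := h3
    have h5 : (x : G.A) ∈ G.IL I ((n : ℤ) - 1) := ⟨x.2.1, h4⟩
    rw [hpred, Submodule.mem_bot] at h5
    exact Subtype.ext h5
  have h6 : (Module.finrank k (G.IL I y) : ℤ) ≤
      Module.finrank k (G.M y ⧸ (G.M ((n : ℤ) - 1)).submoduleOf (G.M y)) := by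
    exact_mod_cast LinearMap.finrank_le_finrank_of_injective hφ
  rw [hM] at h6
  have h7 : (G.d : ℤ) * (y - ((n : ℤ) - 1)) = G.d * (y + 1) - G.d * n := by ring
  rw [h7] at h6
  linarith

theorem finrank_IL_ge : ∃ C : ℕ, ∀ I : Ideal G.A, I ≠ ⊥ → ∀ y : ℤ,
    G.d * (y - C) - G.degI I ≤ (Module.finrank k (G.IL I y) : ℤ) := by
  obtain ⟨C, hC⟩ := G.finrank_L_ge
  refine ⟨C, fun I hI y => ?_⟩
  have := G.fin_L y
  have := G.fin_quotI I hI
  have := G.fin_IL I y
  let ψ : G.L y →ₗ[k] (G.A ⧸ I) :=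
    { toFun := fun x => Ideal.Quotient.mk I ⟨(x : K), x.2.1⟩
      map_add' := fun a b => by
        rw [← map_add]
        rfl
      map_smul' := fun c a => by
        have h1 : (⟨((c • a : G.L y) : K), (c • a).2.1⟩ : G.A) = c • (⟨(a : K), a.2.1⟩ : G.A) := rfl
        rw [h1]
        rfl }
  have h1 : Module.finrank k (LinearMap.range ψ) + Module.finrank k (LinearMap.ker ψ) =
      Module.finrank k (G.L y) := LinearMap.finrank_range_add_finrank_ker ψ
  have h2 : Module.finrank k (LinearMap.range ψ) ≤ G.degI I := Submodule.finrank_le _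
  let θ : LinearMap.ker ψ →ₗ[k] G.IL I y :=
    { toFun := fun x => ⟨⟨((x : G.L y) : K), (x : G.L y).2.1⟩,
        Ideal.Quotient.eq_zero_iff_mem.1 (LinearMap.mem_ker.1 x.2), (x : G.L y).2.2⟩
      map_add' := fun _ _ => rfl
      map_smul' := fun _ _ => rfl }
  have hθ : Function.Injective θ := by
    intro a b h
    have h3 : ((a : G.L y) : K) = ((b : G.L y) : K) :=
      congrArg (fun z : G.IL I y => ((z : G.A) : K)) h
    exact Subtype.ext (Subtype.ext h3)
  have h3 : Module.finrank k (LinearMap.ker ψ) ≤ Module.finrank k (G.IL I y) :=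
    LinearMap.finrank_le_finrank_of_injective hθ
  have h4 := hC y
  have h5 : (Module.finrank k (G.L y) : ℤ) ≤ G.degI I + Module.finrank k (G.IL I y) := by
    rw [← h1]
    push_cast
    have h6 : (Module.finrank k (LinearMap.range ψ) : ℤ) ≤ G.degI I := by exact_mod_cast h2
    have h7 : (Module.finrank k (LinearMap.ker ψ) : ℤ) ≤ Module.finrank k (G.IL I y) := by
      exact_mod_cast h3
    linarith
  linarith

end Pool.Agent.GBC.Geo
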