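import Mathlib

/-!
Module Q.Chi of GBC. Linear algebra: the Euler characteristic of a pair of subspaces.

PROOFS. `k` a field, `V` a `k`-space, `P ≤ P'`, `M` subspaces, `dim P' / P < ∞`.
`chi_left`: there is an exact sequence
`0 → (P' ⊓ M) / (P ⊓ M) → P' / P → (P' ⊔ M) / (P ⊔ M) → 0` (an element of `P'` which is in
`P ⊔ M` is `p + x`, `x ∈ M ∩ P'`), and
`dim (P' ⊓ M) = dim (P ⊓ M) + dim (P' ⊓ M) / (P ⊓ M)`,
`dim V / (P ⊔ M) = dim V / (P' ⊔ M) + dim (P' ⊔ M) / (P ⊔ M)`, with finiteness in both directions.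
(`Submodule.quotientQuotientEquivQuotient`, `Submodule.finrank_quotient_add_finrank`,
`LinearMap.finrank_range_add_finrank_ker`, `Module.Finite.of_surjective`, ...)
`chi_comm`: `inf_comm`, `sup_comm`. `chi_map`: `e` maps `P ⊓ M` to `P.map e ⊓ M.map e`
(`Submodule.map_inf`), and `V / (P ⊔ M) ≃ V / (P.map e ⊔ M.map e)` (`Submodule.Quotient.equiv`).
-/

set_option autoImplicit false

namespace Pool.Agent.GBC

variable {k V : Type} [Field k] [AddCommGroup V] [Module k V]

/-- `P ∩ M` and `V / (P + M)` are finite dimensional. -/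
structure ChiFin (P M : Submodule k V) : Prop where
  inf : Module.Finite k (P ⊓ M : Submodule k V)
  sup : Module.Finite k (V ⧸ (P ⊔ M))

/-- `dim P ∩ M - dim V / (P + M)` -/
noncomputable def chi (P M : Submodule k V) : ℤ :=
  (Module.finrank k (P ⊓ M : Submodule k V) : ℤ) - Module.finrank k (V ⧸ (P ⊔ M))

/-- `P' / P` -/
abbrev Rel (P P' : Submodule k V) : Type := P' ⧸ P.submoduleOf P'

/-- `P' ∩ M → P' / P` -/
private noncomputable def Chi_f (P P' M : Submodule k V) :
    (P' ⊓ M : Submodule k V) →ₗ[k] Rel P P' :=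
  (P.submoduleOf P').mkQ ∘ₗ Submodule.inclusion (inf_le_left : P' ⊓ M ≤ P')

private theorem Chi_mem {P P' : Submodule k V} {x : P'} : x ∈ P.submoduleOf P' ↔ x.1 ∈ P :=
  Iff.rfl

private theorem Chi_g_le (P P' M : Submodule k V) :
    P.submoduleOf P' ≤ LinearMap.ker ((P ⊔ M).mkQ ∘ₗ P'.subtype) := by
  intro x hx
  rw [LinearMap.mem_ker, LinearMap.comp_apply, Submodule.mkQ_apply,
    Submodule.Quotient.mk_eq_zero]
  exact Submodule.mem_sup_left ((Chi_mem.1 hx))

/-- `P' / P → V / (P + M)` -/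
private noncomputable def Chi_g (P P' M : Submodule k V) : Rel P P' →ₗ[k] V ⧸ (P ⊔ M) :=
  (P.submoduleOf P').liftQ ((P ⊔ M).mkQ ∘ₗ P'.subtype) (Chi_g_le P P' M)

/-- `V / (P + M) → V / (P' + M)` -/
private noncomputable def Chi_h {P P' : Submodule k V} (M : Submodule k V) (h : P ≤ P') :
    V ⧸ (P ⊔ M) →ₗ[k] V ⧸ (P' ⊔ M) :=
  Submodule.factor (sup_le_sup_right h M)

private theorem Chi_f_apply (P P' M : Submodule k V) (x : (P' ⊓ M : Submodule k V)) :
    Chi_f P P' M x = (P.submoduleOf P').mkQ ⟨x.1, x.2.1⟩ := rfl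

private theorem Chi_g_mk (P P' M : Submodule k V) (x : P') :
    Chi_g P P' M ((P.submoduleOf P').mkQ x) = (P ⊔ M).mkQ x.1 := rfl

private theorem Chi_h_mk {P P' : Submodule k V} (M : Submodule k V) (h : P ≤ P') (x : V) :
    Chi_h M h ((P ⊔ M).mkQ x) = (P' ⊔ M).mkQ x := rfl

private theorem Chi_mk_eq {P : Submodule k V} {x : V} : P.mkQ x = 0 ↔ x ∈ P := by
  rw [Submodule.mkQ_apply, Submodule.Quotient.mk_eq_zero]

private theorem Chi_ker_f (P P' M : Submodule k V) (h : P ≤ P') :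
    LinearMap.ker (Chi_f P P' M) = (P ⊓ M).submoduleOf (P' ⊓ M) := by
  ext x
  rw [LinearMap.mem_ker, Chi_f_apply, Submodule.mkQ_apply, Submodule.Quotient.mk_eq_zero,
    Chi_mem, Chi_mem]
  constructor
  · intro hx
    exact ⟨hx, x.2.2⟩
  · intro hx
    exact hx.1

private theorem Chi_ker_g (P P' M : Submodule k V) (h : P ≤ P') :
    LinearMap.ker (Chi_g P P' M) = LinearMap.range (Chi_f P P' M) := by
  ext y
  obtain ⟨x, rfl⟩ := Submodule.mkQ_surjective _ y
  rw [LinearMap.mem_ker, Chi_g_mk, Chi_mk_eq, LinearMap.mem_range]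
  constructor
  · intro hx
    obtain ⟨p, hp, m, hm, hpm⟩ := Submodule.mem_sup.1 hx
    have hm' : m = x.1 - p := by
      rw [← hpm, add_sub_cancel_left]
    have hmP : m ∈ P' := by
      rw [hm']
      exact Submodule.sub_mem _ x.2 (h hp)
    refine ⟨⟨m, hmP, hm⟩, ?_⟩
    rw [Chi_f_apply, ← sub_eq_zero, ← map_sub, Submodule.mkQ_apply,
      Submodule.Quotient.mk_eq_zero, Chi_mem]
    change m - x.1 ∈ P
    rw [hm', sub_sub_cancel_left]
    exact Submodule.neg_mem _ hp
  · rintro ⟨m, hm⟩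
    rw [Chi_f_apply, ← sub_eq_zero, ← map_sub, Submodule.mkQ_apply,
      Submodule.Quotient.mk_eq_zero, Chi_mem] at hm
    have hm2 : m.1 - x.1 ∈ P := hm
    have h3 : x.1 = m.1 - (m.1 - x.1) := by rw [sub_sub_cancel]
    rw [h3]
    exact Submodule.sub_mem _ (Submodule.mem_sup_right m.2.2) (Submodule.mem_sup_left hm2)

private theorem Chi_ker_h {P P' : Submodule k V} (M : Submodule k V) (h : P ≤ P') :
    LinearMap.ker (Chi_h M h) = LinearMap.range (Chi_g P P' M) := by
  ext y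
  obtain ⟨x, rfl⟩ := Submodule.mkQ_surjective _ y
  rw [LinearMap.mem_ker, Chi_h_mk, Chi_mk_eq, LinearMap.mem_range]
  constructor
  · intro hx
    obtain ⟨p, hp, m, hm, hpm⟩ := Submodule.mem_sup.1 hx
    refine ⟨(P.submoduleOf P').mkQ ⟨p, hp⟩, ?_⟩
    rw [Chi_g_mk, ← sub_eq_zero, ← map_sub, Chi_mk_eq]
    change p - x ∈ P ⊔ M
    rw [← hpm, sub_add_cancel_left]
    exact Submodule.neg_mem _ (Submodule.mem_sup_right hm)
  · rintro ⟨z, hz⟩
    obtain ⟨p, rfl⟩ := Submodule.mkQ_surjective _ z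
    rw [Chi_g_mk, ← sub_eq_zero, ← map_sub, Chi_mk_eq] at hz
    have h3 : x = p.1 - (p.1 - x) := by rw [sub_sub_cancel]
    rw [h3]
    exact Submodule.sub_mem _ (Submodule.mem_sup_left p.2)
      (sup_le_sup_right h M hz)

private theorem Chi_h_surj {P P' : Submodule k V} (M : Submodule k V) (h : P ≤ P') :
    Function.Surjective (Chi_h M h) := by
  intro y
  obtain ⟨x, rfl⟩ := Submodule.mkQ_surjective _ y
  exact ⟨(P ⊔ M).mkQ x, rfl⟩

private theorem Chi_finite_of {X Y : Type} [AddCommGroup X] [Module k X] [AddCommGroup Y]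
    [Module k Y] (f : X →ₗ[k] Y) (h1 : Module.Finite k (LinearMap.ker f))
    (h2 : Module.Finite k (LinearMap.range f)) : Module.Finite k X := by
  have h3 : Module.Finite k (X ⧸ LinearMap.ker f) :=
    Module.Finite.equiv f.quotKerEquivRange.symm
  exact Module.Finite.of_submodule_quotient (LinearMap.ker f)

private theorem Chi_left_fin {P P' M : Submodule k V} (h : P ≤ P')
    (hf : Module.Finite k (Rel P P')) : ChiFin P M ↔ ChiFin P' M := by
  have hrf : Module.Finite k (LinearMap.range (Chi_f P P' M)) := inferInstance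
  have hrg : Module.Finite k (LinearMap.range (Chi_g P P' M)) := inferInstance
  constructor
  · rintro ⟨h1, h2⟩
    refine ⟨?_, Module.Finite.of_surjective (Chi_h M h) (Chi_h_surj M h)⟩
    apply Chi_finite_of (Chi_f P P' M) _ hrf
    rw [Chi_ker_f P P' M h]
    exact Module.Finite.equiv
      (Submodule.submoduleOfEquivOfLe (inf_le_inf_right M h)).symm
  · rintro ⟨h1, h2⟩
    refine ⟨Module.Finite.of_injective (Submodule.inclusion (inf_le_inf_right M h))
      (Submodule.inclusion_injective _), ?_⟩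
    apply Chi_finite_of (Chi_h M h)
    · rw [Chi_ker_h M h]
      exact hrg
    · infer_instance

theorem chi_left {P P' M : Submodule k V} (h : P ≤ P') (hf : Module.Finite k (Rel P P')) :
    (ChiFin P M ↔ ChiFin P' M) ∧
      (ChiFin P M → chi P' M = chi P M + Module.finrank k (Rel P P')) := by
  refine ⟨Chi_left_fin h hf, fun hP => ?_⟩
  have hP' : ChiFin P' M := (Chi_left_fin h hf).1 hP
  have i1 := hP.inf
  have i2 := hP.sup
  have i3 := hP'.inf
  have i4 := hP'.sup
  have e1 := LinearMap.finrank_range_add_finrank_ker (Chi_f P P' M)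
  have e2 := LinearMap.finrank_range_add_finrank_ker (Chi_g P P' M)
  have e3 := LinearMap.finrank_range_add_finrank_ker (Chi_h M h)
  rw [Chi_ker_f P P' M h,
    (Submodule.submoduleOfEquivOfLe (inf_le_inf_right M h)).finrank_eq] at e1
  rw [Chi_ker_g P P' M h] at e2
  rw [Chi_ker_h M h, LinearMap.range_eq_top.2 (Chi_h_surj M h), finrank_top] at e3
  unfold chi
  omega

theorem chiFin_comm {P M : Submodule k V} : ChiFin P M ↔ ChiFin M P := by
  have h : ∀ {A B : Submodule k V}, ChiFin A B → ChiFin B A := by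
    intro A B hAB
    refine ⟨?_, ?_⟩
    · rw [inf_comm]
      exact hAB.inf
    · rw [sup_comm]
      exact hAB.sup
  exact ⟨h, h⟩

theorem chi_comm (P M : Submodule k V) : chi P M = chi M P := by
  unfold chi
  rw [inf_comm, sup_comm]

theorem chi_map {W : Type} [AddCommGroup W] [Module k W] (e : V ≃ₗ[k] W) (P M : Submodule k V) :
    (ChiFin (P.map (e : V →ₗ[k] W)) (M.map (e : V →ₗ[k] W)) ↔ ChiFin P M) ∧
      chi (P.map (e : V →ₗ[k] W)) (M.map (e : V →ₗ[k] W)) = chi P M := by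
  have hinf : P.map (e : V →ₗ[k] W) ⊓ M.map (e : V →ₗ[k] W) = (P ⊓ M).map (e : V →ₗ[k] W) :=
    (Submodule.map_inf _ e.injective).symm
  have hsup : P.map (e : V →ₗ[k] W) ⊔ M.map (e : V →ₗ[k] W) = (P ⊔ M).map (e : V →ₗ[k] W) :=
    (Submodule.map_sup _ _ _).symm
  have e1 : (P ⊓ M : Submodule k V) ≃ₗ[k]
      (P.map (e : V →ₗ[k] W) ⊓ M.map (e : V →ₗ[k] W) : Submodule k W) :=
    (e.submoduleMap (P ⊓ M)).trans (LinearEquiv.ofEq _ _ hinf.symm)
  have e2 : (V ⧸ (P ⊔ M)) ≃ₗ[k] (W ⧸ (P.map (e : V →ₗ[k] W) ⊔ M.map (e : V →ₗ[k] W))) :=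
    Submodule.Quotient.equiv _ _ e hsup.symm
  refine ⟨⟨fun h => ⟨?_, ?_⟩, fun h => ⟨?_, ?_⟩⟩, ?_⟩
  · have := h.inf
    exact Module.Finite.equiv e1.symm
  · have := h.sup
    exact Module.Finite.equiv e2.symm
  · have := h.inf
    exact Module.Finite.equiv e1
  · have := h.sup
    exact Module.Finite.equiv e2
  · unfold chi
    rw [e1.finrank_eq, e2.finrank_eq]

theorem chi_le (P M : Submodule k V) :
    chi P M ≤ Module.finrank k (P ⊓ M : Submodule k V) := by
  unfold chi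
  omega

end Pool.Agent.GBC
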