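import Pool.Agent.Lib.GBC.Q.Base
import Pool.Agent.Lib.GBC.Q.Chi

/-!
Module Q.LDim of GBC. The dimension of `L y = A ∩ t ^ y B`.

PROOFS. `P = A.toSubmodule`. `chiFin`: for `y = 0` `M 0 = B.toSubmodule` (`mem_M_zero`), `G.fin_inf`,
`G.fin_sup`; for general `y` from `chi_left` (with `chiFin_comm`, `chi_comm`), `fin_M`, `finrank_M`,
comparing `M 0` and `M y` (`y ≥ 0` or `y ≤ 0`); this gives also `chi_eq`.
`finrank_L_ge`: `chi_le` with `C` such that `- d C ≤ chi A (M 0)`.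
`finrank_L_le`: induction on `y` from `L (-1) = 0`: `L (y + 1) / L y` embeds in `M (y + 1) / M y`, of
dimension `d`. Finite dimensionality is part of `chiFin`.
-/

set_option autoImplicit false

namespace Pool.Agent.GBC.Geo

open Pool.Agent.BSDP Pool.Agent.BSDFF Pool.Agent.HYP

variable {k K : Type} [Field k] [Field K] [Algebra k K] (G : Geo k K)

private lemma LDim_M0 : G.M 0 = G.B.toSubmodule := by
  ext x
  rw [G.mem_M_zero]
  rfl

private lemma LDim_fin0 : ChiFin G.A.toSubmodule (G.M 0) := by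
  rw [LDim_M0]
  exact ⟨G.fin_inf, G.fin_sup⟩

private lemma LDim_both (y : ℤ) : ChiFin G.A.toSubmodule (G.M y) ∧
    chi G.A.toSubmodule (G.M y) = chi G.A.toSubmodule (G.M 0) + G.d * y := by
  have h0 := LDim_fin0 G
  rw [chiFin_comm] at h0
  rcases le_total 0 y with h | h
  · obtain ⟨h1, h2⟩ := chi_left (M := G.A.toSubmodule) (G.M_mono h) (G.fin_M h)
    refine ⟨chiFin_comm.1 (h1.1 h0), ?_⟩
    rw [chi_comm, h2 h0, chi_comm]
    have h3 := G.finrank_M h
    rw [h3]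
    ring
  · obtain ⟨h1, h2⟩ := chi_left (M := G.A.toSubmodule) (G.M_mono h) (G.fin_M h)
    refine ⟨chiFin_comm.1 (h1.2 h0), ?_⟩
    have h4 := h2 (h1.2 h0)
    have h3 := G.finrank_M h
    rw [h3, chi_comm, chi_comm (G.M y)] at h4
    rw [h4]
    ring

theorem chiFin (y : ℤ) : ChiFin G.A.toSubmodule (G.M y) := (LDim_both G y).1

theorem chi_eq (y : ℤ) : chi G.A.toSubmodule (G.M y) = chi G.A.toSubmodule (G.M 0) + G.d * y :=
  (LDim_both G y).2

theorem fin_L (y : ℤ) : Module.Finite k (G.L y) := (G.chiFin y).inf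

theorem finrank_L_le {y : ℤ} (hy : -1 ≤ y) : (Module.finrank k (G.L y) : ℤ) ≤ G.d * (y + 1) := by
  have h1 := G.finrank_M hy
  have := G.fin_M hy
  have h2 : (G.d : ℤ) * (y + 1) = G.d * (y - -1) := by ring
  rw [h2, ← h1]
  have hle : G.L y ≤ G.M y := inf_le_right
  let φ : G.L y →ₗ[k] (G.M y ⧸ (G.M (-1)).submoduleOf (G.M y)) :=
    ((G.M (-1)).submoduleOf (G.M y)).mkQ ∘ₗ Submodule.inclusion hle
  have hφ : Function.Injective φ := by
    rw [injective_iff_map_eq_zero]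
    intro x hx
    have h3 : Submodule.inclusion hle x ∈ (G.M (-1)).submoduleOf (G.M y) := by
      rw [← Submodule.Quotient.mk_eq_zero]
      exact hx
    have h4 : (x : K) ∈ G.M (-1) := by
      exact h3
    have h5 : (x : K) = 0 := G.L_neg (by norm_num : (-1 : ℤ) < 0) x.2.1 h4
    exact Subtype.ext h5
  exact_mod_cast LinearMap.finrank_le_finrank_of_injective hφ

theorem finrank_L_ge : ∃ C : ℕ, ∀ y : ℤ, G.d * (y - C) ≤ (Module.finrank k (G.L y) : ℤ) := by
  refine ⟨(chi G.A.toSubmodule (G.M 0)).natAbs, fun y => ?_⟩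
  have h1 := chi_le G.A.toSubmodule (G.M y)
  rw [G.chi_eq] at h1
  have h2 : (1 : ℤ) ≤ G.d := by exact_mod_cast G.d_pos
  have h3 : (0 : ℤ) ≤ ((chi G.A.toSubmodule (G.M 0)).natAbs : ℤ) := by positivity
  have h4 : -(((chi G.A.toSubmodule (G.M 0)).natAbs : ℤ)) ≤ chi G.A.toSubmodule (G.M 0) := by
    omega
  have h5 : (G.L y) = (G.A.toSubmodule ⊓ G.M y) := rfl
  rw [h5]
  nlinarith

end Pool.Agent.GBC.Geo
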