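import Mathlib

/-!
Module Q.Ded of GBC. Degrees of ideals in a Dedekind domain `R` which is a `k`-algebra with finite
dimensional quotients.

PROOF. `finrank_mul`: it is enough to treat `I * P` with `P` a maximal ideal (then induct on the
factorization of `J`: `UniqueFactorizationMonoid.induction_on_prime` for ideals, or
`Ideal.finprod`/`WfDvdMonoid.induction_on_irreducible`; the nonzero prime ideals of a Dedekind domain
are maximal). `I P ≤ I`, `dim R / (I P) = dim R / I + dim I / (I P)` (the third isomorphism theorem,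
`Submodule.finrank_quotient_add_finrank` for the subspace `I / I P` of `R / I P`). `I / (I P)` is
isomorphic to `R / P` as an `R`-module: choose `x ∈ I`, `x ∉ I P` (`I P ≠ I` by cancellation), then
`I = (x) ⊔ I P` (`I P < (x) ⊔ I P ≤ I` and there is no ideal strictly between `I P` and `I`: divide by
`I`) and `r x ∈ I P ↔ r ∈ P` (`⊇` is clear; it is a proper ideal, `P` is maximal).
See `Ideal.quotEquivPowQuotPowSucc`/`Ideal.exists_mul_add_mem_pow_succ` and the proof of
`cardQuot_pow_of_prime` in Mathlib for this argument.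
`finrank_le`: `R / I → R / J` is surjective for `I ≤ J`.
`finrank_prod`: induction; `J = ⊤` has degree `0`.
-/

set_option autoImplicit false

namespace Pool.Agent.GBC

variable {k R : Type} [Field k] [CommRing R] [IsDedekindDomain R] [Algebra k R]

omit [Algebra k R] in
private theorem Ded_key {I J : Ideal R} (hI : I ≠ ⊥) (hJ : J ≠ ⊥) :
    ∃ x ∈ I, I * J ⊔ Ideal.span {x} = I ∧ ∀ r : R, r * x ∈ I * J ↔ r ∈ J := by
  obtain ⟨x, hx⟩ := IsDedekindDomain.exists_sup_span_eq (Ideal.mul_le_left : I * J ≤ I)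
    (mul_ne_zero hI hJ)
  have hxI : x ∈ I := by
    rw [← hx]; exact Ideal.mem_sup_right (Ideal.mem_span_singleton_self x)
  refine ⟨x, hxI, hx, fun r => ⟨fun h => ?_, fun h => ?_⟩⟩
  · obtain ⟨C, hC⟩ : I ∣ Ideal.span {x} := by
      rw [Ideal.dvd_iff_le, Ideal.span_singleton_le_iff_mem]; exact hxI
    have hcop : J ⊔ C = ⊤ := by
      have h1 : I * (J ⊔ C) = I * ⊤ := by
        rw [Ideal.mul_sup, ← hC, hx, Ideal.mul_top]
      exact mul_left_cancel₀ hI h1
    have h2 : Ideal.span {r} * C ≤ J := by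
      rw [← Ideal.dvd_iff_le, ← mul_dvd_mul_iff_left hI, Ideal.dvd_iff_le]
      have h3 : I * (Ideal.span {r} * C) = Ideal.span {r * x} := by
        rw [← mul_assoc, mul_comm I, mul_assoc, ← hC, Ideal.span_singleton_mul_span_singleton]
      rw [h3, Ideal.span_singleton_le_iff_mem]
      exact h
    have h4 : Ideal.span {r} ≤ J := by
      calc Ideal.span {r} = Ideal.span {r} * (J ⊔ C) := by rw [hcop, Ideal.mul_top]
        _ = Ideal.span {r} * J ⊔ Ideal.span {r} * C := Ideal.mul_sup _ _ _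
        _ ≤ J := sup_le Ideal.mul_le_right h2
    exact (Ideal.span_singleton_le_iff_mem J).1 h4
  · rw [mul_comm r x]; exact Ideal.mul_mem_mul hxI h

theorem finrank_mul (h : ∀ I : Ideal R, I ≠ ⊥ → Module.Finite k (R ⧸ I)) {I J : Ideal R}
    (hI : I ≠ ⊥) (hJ : J ≠ ⊥) :
    Module.finrank k (R ⧸ (I * J)) = Module.finrank k (R ⧸ I) + Module.finrank k (R ⧸ J) := by
  obtain ⟨x, hxI, hsup, hkey⟩ := Ded_key hI hJ
  have hfin : Module.Finite k (R ⧸ (I * J)) := h _ (mul_ne_zero hI hJ)
  let φ : R →ₗ[R] (R ⧸ (I * J)) := (Submodule.mkQ (I * J)).comp (LinearMap.mulRight R x)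
  have hφ : ∀ r, φ r = Ideal.Quotient.mk (I * J) (r * x) := fun r => rfl
  have hker : LinearMap.ker φ = J := by
    ext r
    rw [LinearMap.mem_ker, hφ, Ideal.Quotient.eq_zero_iff_mem, hkey]
  let g0 : (R ⧸ J) →ₗ[R] (R ⧸ (I * J)) := Submodule.liftQ J φ (le_of_eq hker.symm)
  have hg0 : LinearMap.ker g0 = ⊥ := Submodule.ker_liftQ_eq_bot _ _ _ (le_of_eq hker)
  let g : (R ⧸ J) →ₗ[k] (R ⧸ (I * J)) := g0.restrictScalars k
  have hg0inj : Function.Injective g0 := LinearMap.ker_eq_bot.1 hg0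
  have hginj : Function.Injective g := hg0inj
  let f : (R ⧸ (I * J)) →ₗ[k] (R ⧸ I) :=
    (Submodule.mapQ (I * J) I LinearMap.id (by
      rw [Submodule.comap_id]; exact Ideal.mul_le_left) :
      (R ⧸ (I * J)) →ₗ[R] (R ⧸ I)).restrictScalars k
  have hfmk : ∀ r : R, f (Ideal.Quotient.mk (I * J) r) = Ideal.Quotient.mk I r := fun r => rfl
  have hfsurj : Function.Surjective f := by
    intro y
    obtain ⟨r, rfl⟩ := Ideal.Quotient.mk_surjective y
    exact ⟨Ideal.Quotient.mk (I * J) r, hfmk r⟩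
  have hgmk : ∀ r : R, g (Ideal.Quotient.mk J r) = Ideal.Quotient.mk (I * J) (r * x) :=
    fun r => rfl
  have hrange : LinearMap.range g = LinearMap.ker f := by
    ext y
    obtain ⟨r, rfl⟩ := Ideal.Quotient.mk_surjective y
    rw [LinearMap.mem_ker, hfmk, Ideal.Quotient.eq_zero_iff_mem, LinearMap.mem_range]
    constructor
    · rintro ⟨z, hz⟩
      obtain ⟨s, rfl⟩ := Ideal.Quotient.mk_surjective z
      rw [hgmk, Ideal.Quotient.eq] at hz
      have h1 : s * x ∈ I := Ideal.mul_mem_left I s hxI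
      have h2 : s * x - r ∈ I := (Ideal.mul_le_left : I * J ≤ I) hz
      have h3 := I.sub_mem h1 h2
      rwa [sub_sub_cancel] at h3
    · intro hr
      rw [← hsup, Submodule.mem_sup] at hr
      obtain ⟨a, ha, b, hb, hab⟩ := hr
      obtain ⟨s, rfl⟩ := Ideal.mem_span_singleton'.1 hb
      refine ⟨Ideal.Quotient.mk J s, ?_⟩
      rw [hgmk, Ideal.Quotient.eq, ← hab]
      have : s * x - (a + s * x) = -a := by ring
      rw [this]
      exact (I * J).neg_mem ha
  have h1 := LinearMap.finrank_range_add_finrank_ker f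
  rw [LinearMap.range_eq_top.2 hfsurj, finrank_top, ← hrange,
    LinearMap.finrank_range_of_inj hginj] at h1
  exact h1.symm

theorem finrank_le (h : ∀ I : Ideal R, I ≠ ⊥ → Module.Finite k (R ⧸ I)) {I J : Ideal R}
    (hI : I ≠ ⊥) (hIJ : I ≤ J) : Module.finrank k (R ⧸ J) ≤ Module.finrank k (R ⧸ I) := by
  have hfin : Module.Finite k (R ⧸ I) := h _ hI
  let f : (R ⧸ I) →ₗ[k] (R ⧸ J) :=
    (Submodule.mapQ I J LinearMap.id (by rw [Submodule.comap_id]; exact hIJ) :
      (R ⧸ I) →ₗ[R] (R ⧸ J)).restrictScalars k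
  have hfmk : ∀ r : R, f (Ideal.Quotient.mk I r) = Ideal.Quotient.mk J r := fun r => rfl
  have hfsurj : Function.Surjective f := by
    intro y
    obtain ⟨r, rfl⟩ := Ideal.Quotient.mk_surjective y
    exact ⟨Ideal.Quotient.mk I r, hfmk r⟩
  exact LinearMap.finrank_le_finrank_of_surjective hfsurj

theorem finrank_prod (h : ∀ I : Ideal R, I ≠ ⊥ → Module.Finite k (R ⧸ I)) {ι : Type}
    (s : Finset ι) (I : ι → Ideal R) (hI : ∀ i ∈ s, I i ≠ ⊥) :
    Module.finrank k (R ⧸ (∏ i ∈ s, I i)) = ∑ i ∈ s, Module.finrank k (R ⧸ I i) := by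
  classical
  induction s using Finset.induction_on with
  | empty =>
    rw [Finset.prod_empty, Finset.sum_empty, Ideal.one_eq_top]
    have : Subsingleton (R ⧸ (⊤ : Ideal R)) := Ideal.Quotient.subsingleton_iff.2 rfl
    exact Module.finrank_zero_of_subsingleton
  | insert a s ha ih =>
    have h1 : I a ≠ ⊥ := hI a (Finset.mem_insert_self _ _)
    have h2 : ∏ i ∈ s, I i ≠ ⊥ := by
      have : ∏ i ∈ s, I i ≠ 0 :=
        Finset.prod_ne_zero_iff.2 fun i hi => hI i (Finset.mem_insert_of_mem hi)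
      exact this
    rw [Finset.prod_insert ha, Finset.sum_insert ha, finrank_mul h h1 h2,
      ih fun i hi => hI i (Finset.mem_insert_of_mem hi)]

end Pool.Agent.GBC
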