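import Pool.Agent.Lib.GBC.Q.LDim
import Pool.Agent.Lib.GBC.Q.Ded

/-!
Module Q.Deg of GBC. The product formula: `dim A / (a) ≤ d y` for `a ∈ A ∩ t ^ y B` different from `0`.

PROOF. `a ∈ A`, `a ≠ 0`, `a ∈ M y`. Let `E` be the `k`-linear automorphism `x ↦ a x` of `K`,
`P = A.toSubmodule`, `P.map E = a A`. `(M 0).map E ≤ M y`, and `M y / (a M 0)` is finite
dimensional: `a⁻¹ ∈ M n` for some `n` (`exists_mem_M`), so `M (-n) ≤ a M 0`
[`x ∈ M (-n)`, `a⁻¹ x ∈ M 0`], so `M y / a M 0` is a quotient of `M y / M (-n)` (`fin_M`).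
Finiteness of `A / a A`: by `chi_map` and `chi_left` the space `K / (a A + M y)` is finite
dimensional, and the kernel of `A / a A → K / (a A + M y)` is the image of `A ∩ M y`.
Then for `I ≠ ⊥` take `0 ≠ a ∈ I`: `A / I` is a quotient of `A / (a)`: `fin_quotI`.
The inequality: `chi (P.map E) ((M 0).map E) = chi P (M 0)` (`chi_map`).
`chi_left` (with `P.map E ≤ P`): `chi P (a M 0) = chi (P.map E) (a M 0) + dim A / (a)`,
where `Rel (P.map E) P ≃ A / (a)`; and `chi P (M y) ≥ chi P (a M 0)` by `chi_left`, `chi_comm`. So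
`dim A / (a) = chi P (a M 0) - chi P (M 0) ≤ chi P (M y) - chi P (M 0) = d y` (`chi_eq`).
`degI_mul` etc. are `finrank_mul`, ... for `R = A`.
-/

set_option autoImplicit false

namespace Pool.Agent.GBC.Geo

open Pool.Agent.BSDP Pool.Agent.BSDFF Pool.Agent.HYP

section lin

variable {k V : Type} [Field k] [AddCommGroup V] [Module k V]

private theorem qdeg_rel_fin {P P' P'' : Submodule k V} (h : P ≤ P')
    (hf : Module.Finite k (Rel P P'')) : Module.Finite k (Rel P' P'') := by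
  have h' : P.submoduleOf P'' ≤ P'.submoduleOf P'' := fun x hx => h hx
  exact Module.Finite.of_surjective (Submodule.factor h') (Submodule.factor_surjective h')

private theorem qdeg_fin_rel {P' P M : Submodule k V} (h : P' ≤ P)
    (hs : Module.Finite k (V ⧸ (P' ⊔ M))) (hi : Module.Finite k (P ⊓ M : Submodule k V)) :
    Module.Finite k (Rel P' P) := by
  let f : Rel P' P →ₗ[k] (V ⧸ (P' ⊔ M)) :=
    Submodule.mapQ (P'.submoduleOf P) (P' ⊔ M) P.subtype
      (fun x hx => Submodule.mem_sup_left (show (x : V) ∈ P' from hx))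
  let g : (P ⊓ M : Submodule k V) →ₗ[k] Rel P' P :=
    (Submodule.mkQ (P'.submoduleOf P)).comp (Submodule.inclusion inf_le_left)
  have hker : LinearMap.ker f ≤ LinearMap.range g := by
    intro x hx
    obtain ⟨x, rfl⟩ := Submodule.Quotient.mk_surjective _ x
    have hx1 : f (Submodule.Quotient.mk x) = 0 := hx
    have hx2 : (x : V) ∈ P' ⊔ M := by
      have : (Submodule.Quotient.mk (x : V) : V ⧸ (P' ⊔ M)) = 0 := hx1
      exact (Submodule.Quotient.mk_eq_zero _).mp this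
    obtain ⟨p, hp, m, hm, hpm⟩ := Submodule.mem_sup.mp hx2
    have hmP : m ∈ P := by
      have : m = (x : V) - p := by rw [← hpm]; abel
      rw [this]
      exact P.sub_mem x.2 (h hp)
    refine ⟨⟨m, hmP, hm⟩, ?_⟩
    change (Submodule.Quotient.mk (⟨m, hmP⟩ : P) : Rel P' P) = Submodule.Quotient.mk x
    rw [Submodule.Quotient.eq]
    change m - (x : V) ∈ P'
    have : m - (x : V) = -p := by rw [← hpm]; abel
    rw [this]
    exact P'.neg_mem hp
  have h1 : Module.Finite k (LinearMap.range g) := inferInstance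
  have h2 : Module.Finite k (LinearMap.ker f) :=
    Module.Finite.of_injective (Submodule.inclusion hker) (Submodule.inclusion_injective hker)
  have h3 : Module.Finite k (LinearMap.range f) := inferInstance
  have h4 : Module.Finite k (Rel P' P ⧸ LinearMap.ker f) :=
    Module.Finite.equiv f.quotKerEquivRange.symm
  exact Module.Finite.of_submodule_quotient (LinearMap.ker f)

end lin

variable {k K : Type} [Field k] [Field K] [Algebra k K] (G : Geo k K)

/-- Multiplication by `a`. -/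
private noncomputable def qdegE (a : K) (h : a ≠ 0) : K ≃ₗ[k] K :=
  LinearEquiv.ofBijective (LinearMap.mulLeft k a)
    ⟨fun _ _ hxy => mul_left_cancel₀ h hxy, fun y => ⟨a⁻¹ * y, mul_inv_cancel_left₀ h y⟩⟩

private theorem qdeg_E_apply (a : K) (h : a ≠ 0) (x : K) : (qdegE (k := k) a h) x = a * x := rfl

private theorem qdeg_mem_map (a : K) (h : a ≠ 0) (P : Submodule k K) (x : K) :
    x ∈ P.map ((qdegE (k := k) a h : K ≃ₗ[k] K) : K →ₗ[k] K) ↔ ∃ y ∈ P, a * y = x := by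
  simp only [Submodule.mem_map]
  rfl

private theorem qdeg_map_le (a : G.A) (h : (a : K) ≠ 0) :
    (G.A.toSubmodule).map ((qdegE (k := k) (a : K) h : K ≃ₗ[k] K) : K →ₗ[k] K) ≤
      G.A.toSubmodule := by
  intro x hx
  obtain ⟨y, hy, rfl⟩ := (qdeg_mem_map _ h _ x).mp hx
  exact G.A.mul_mem a.2 hy

private theorem qdeg_M_le (a : K) (h : a ≠ 0) {y : ℤ} (hy : a ∈ G.M y) :
    (G.M 0).map ((qdegE (k := k) a h : K ≃ₗ[k] K) : K →ₗ[k] K) ≤ G.M y := by
  intro x hx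
  obtain ⟨z, hz, rfl⟩ := (qdeg_mem_map _ h _ x).mp hx
  have := G.mul_mem_M hy hz
  rwa [add_zero] at this

private theorem qdeg_M_fin (a : K) (h : a ≠ 0) {y : ℤ} :
    Module.Finite k
      (Rel ((G.M 0).map ((qdegE (k := k) a h : K ≃ₗ[k] K) : K →ₗ[k] K)) (G.M y)) := by
  obtain ⟨n, hn⟩ := G.exists_mem_M a⁻¹
  obtain ⟨z, hz1, hz2⟩ : ∃ z : ℤ, z ≤ -(n : ℤ) ∧ z ≤ y := ⟨min (-(n : ℤ)) y, min_le_left _ _,
    min_le_right _ _⟩
  refine qdeg_rel_fin (P := G.M z) ?_ (G.fin_M hz2)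
  intro x hx
  rw [qdeg_mem_map]
  refine ⟨a⁻¹ * x, ?_, mul_inv_cancel_left₀ h x⟩
  have h1 := G.mul_mem_M hn (G.M_mono hz1 hx)
  rwa [add_neg_cancel] at h1

private theorem qdeg_chiFin1 (a : K) (h : a ≠ 0) :
    ChiFin ((G.A.toSubmodule).map ((qdegE (k := k) a h : K ≃ₗ[k] K) : K →ₗ[k] K))
      ((G.M 0).map ((qdegE (k := k) a h : K ≃ₗ[k] K) : K →ₗ[k] K)) :=
  (chi_map _ _ _).1.mpr (G.chiFin 0)

private theorem qdeg_chiFin2 (a : K) (h : a ≠ 0) {y : ℤ} (hy : a ∈ G.M y) :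
    ChiFin ((G.A.toSubmodule).map ((qdegE (k := k) a h : K ≃ₗ[k] K) : K →ₗ[k] K)) (G.M y) :=
  chiFin_comm.mp ((chi_left (G.qdeg_M_le a h hy) (G.qdeg_M_fin a h)).1.mp
    (chiFin_comm.mp (G.qdeg_chiFin1 a h)))

private theorem qdeg_rel_A (a : G.A) (h : (a : K) ≠ 0) :
    Module.Finite k (Rel ((G.A.toSubmodule).map
      ((qdegE (k := k) (a : K) h : K ≃ₗ[k] K) : K →ₗ[k] K)) G.A.toSubmodule) := by
  obtain ⟨n, hn⟩ := G.exists_mem_M (a : K)
  exact qdeg_fin_rel (G.qdeg_map_le a h) (G.qdeg_chiFin2 (a : K) h hn).sup (G.chiFin n).inf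

/-- `A / (a)` -/
private noncomputable def qdegEquiv (a : G.A) (h : (a : K) ≠ 0) :
    Rel ((G.A.toSubmodule).map
      ((qdegE (k := k) (a : K) h : K ≃ₗ[k] K) : K →ₗ[k] K)) G.A.toSubmodule ≃ₗ[k]
      (G.A ⧸ Ideal.span {a}) :=
  let f : ↥(Subalgebra.toSubmodule G.A) →ₗ[k] (G.A ⧸ Ideal.span {a}) :=
    (Ideal.Quotient.mkₐ k (Ideal.span {a})).toLinearMap.comp
      (G.A.toSubmoduleEquiv : ↥(Subalgebra.toSubmodule G.A) →ₗ[k] G.A)
  have hf : Function.Surjective f := by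
    intro x
    obtain ⟨x, rfl⟩ := Ideal.Quotient.mk_surjective x
    exact ⟨⟨(x : K), x.2⟩, rfl⟩
  have hk : ((G.A.toSubmodule).map
      ((qdegE (k := k) (a : K) h : K ≃ₗ[k] K) : K →ₗ[k] K)).submoduleOf G.A.toSubmodule =
      LinearMap.ker f := by
    ext x
    rw [LinearMap.mem_ker]
    change (x : K) ∈ (G.A.toSubmodule).map
      ((qdegE (k := k) (a : K) h : K ≃ₗ[k] K) : K →ₗ[k] K) ↔
      Ideal.Quotient.mk (Ideal.span {a}) ⟨(x : K), x.2⟩ = 0
    rw [qdeg_mem_map, Ideal.Quotient.eq_zero_iff_mem, Ideal.mem_span_singleton']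
    constructor
    · rintro ⟨y, hy, hyx⟩
      refine ⟨⟨y, hy⟩, Subtype.ext ?_⟩
      change y * (a : K) = x
      rw [mul_comm, hyx]
    · rintro ⟨y, hy⟩
      refine ⟨(y : K), y.2, ?_⟩
      have := congrArg (Subtype.val) hy
      change (y : K) * (a : K) = x at this
      rw [mul_comm, this]
  (Submodule.quotEquivOfEq _ _ hk).trans (f.quotKerEquivOfSurjective hf)

private theorem qdeg_fin_span (a : G.A) (h : (a : K) ≠ 0) :
    Module.Finite k (G.A ⧸ Ideal.span {a}) := by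
  have := G.qdeg_rel_A a h
  exact Module.Finite.equiv (G.qdegEquiv a h)

theorem fin_quotI (I : Ideal G.A) (hI : I ≠ ⊥) : Module.Finite k (G.A ⧸ I) := by
  obtain ⟨a, haI, ha⟩ := Submodule.exists_mem_ne_zero_of_ne_bot hI
  have ha' : (a : K) ≠ 0 := fun h => ha (Subtype.ext h)
  have := G.qdeg_fin_span a ha'
  have hle : Ideal.span {a} ≤ I := (Ideal.span_singleton_le_iff_mem I).mpr haI
  exact Module.Finite.of_surjective (Ideal.Quotient.factorₐ k hle).toLinearMap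
    (Ideal.Quotient.factor_surjective hle)

theorem degI_span_le {a : G.A} (ha : a ≠ 0) {y : ℤ} (h : (a : K) ∈ G.M y) :
    (G.degI (Ideal.span {a}) : ℤ) ≤ G.d * y := by
  have ha' : (a : K) ≠ 0 := fun h => ha (Subtype.ext h)
  have e1 : G.degI (Ideal.span {a}) = Module.finrank k (Rel ((G.A.toSubmodule).map
      ((qdegE (k := k) (a : K) ha' : K ≃ₗ[k] K) : K →ₗ[k] K)) G.A.toSubmodule) :=
    (LinearEquiv.finrank_eq (G.qdegEquiv a ha')).symm
  have c1 := G.qdeg_chiFin1 (a : K) ha'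
  have m1 := (chi_map (qdegE (k := k) (a : K) ha') G.A.toSubmodule (G.M 0)).2
  obtain ⟨l1, l2⟩ := chi_left (M := (G.M 0).map
    ((qdegE (k := k) (a : K) ha' : K ≃ₗ[k] K) : K →ₗ[k] K)) (G.qdeg_map_le a ha')
    (G.qdeg_rel_A a ha')
  have l3 := l2 c1
  have c2 := chiFin_comm.mp (l1.mp c1)
  have l4 := (chi_left (M := G.A.toSubmodule) (G.qdeg_M_le (a : K) ha' h)
    (G.qdeg_M_fin (a : K) ha')).2 c2
  rw [chi_comm (G.M y), G.chi_eq y, chi_comm _ G.A.toSubmodule] at l4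
  rw [e1]
  have : (0 : ℤ) ≤ (Module.finrank k (Rel ((G.M 0).map
    ((qdegE (k := k) (a : K) ha' : K ≃ₗ[k] K) : K →ₗ[k] K)) (G.M y)) : ℤ) := Nat.cast_nonneg _
  linarith

theorem degI_mul {I J : Ideal G.A} (hI : I ≠ ⊥) (hJ : J ≠ ⊥) :
    G.degI (I * J) = G.degI I + G.degI J :=
  Pool.Agent.GBC.finrank_mul (G.fin_quotI) hI hJ

theorem degI_le {I J : Ideal G.A} (hI : I ≠ ⊥) (hIJ : I ≤ J) : G.degI J ≤ G.degI I :=
  Pool.Agent.GBC.finrank_le (G.fin_quotI) hI hIJ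

theorem degI_prod {ι : Type} (s : Finset ι) (I : ι → Ideal G.A) (hI : ∀ i ∈ s, I i ≠ ⊥) :
    G.degI (∏ i ∈ s, I i) = ∑ i ∈ s, G.degI (I i) :=
  Pool.Agent.GBC.finrank_prod (G.fin_quotI) s I hI

end Pool.Agent.GBC.Geo
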